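import Pool.Agent.H827Z.Net.Final

set_option autoImplicit false

open Pool.Agent.H827Z.Net

namespace Pool.Agent.Results.MP_e1010f_an.ARigidSynchrony

/-- The rigid synchrony conjecture: a rigid synchrony pattern of a hyperbolic periodic orbit of an
admissible `C¹` system is balanced. -/
theorem result {C A L : Type} [Fintype C] [Fintype A] (G : Network C A) (V : L → Type)
    [∀ l, NormedAddCommGroup (V l)] [∀ l, NormedSpace ℝ (V l)] [∀ l, FiniteDimensional ℝ (V l)]
    (sp : C → L) (hnt : ∀ c, Nontrivial (V (sp c))) (hsp : ∀ c d, G.nodeT c d → sp c = sp d)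
    (f : (∀ c, V (sp c)) → ∀ c, V (sp c)) (hf : ContDiff ℝ 1 f) (hadm : G.Admissible sp f)
    (x : ℝ → ∀ c, V (sp c)) (T : ℝ) (hx : IsPeriodicOrbit f x T) (hh : IsHyperbolic f x T)
    (K : Set (∀ c, V (sp c)))
    (hR : RigidOn K (fun g => ContDiff ℝ 1 g ∧ G.Admissible sp g) f x T
      fun y _ => ∀ c d, (∀ t, st sp (x t) c = st sp (x t) d) → ∀ t, st sp (y t) c = st sp (y t) d) :
    G.Balanced fun c d => ∀ t, st sp (x t) c = st sp (x t) d :=
  rigid_synchrony hsp hnt hf hadm hx hh hR.univ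

end Pool.Agent.Results.MP_e1010f_an.ARigidSynchrony
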